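import Pool.Agent.H8.AV3.Stmts5
import Pool.Agent.H8.AV3.Base

/-!
# Three-descent, stage 3: normal form at an exact good point (NFL3)
-/

set_option autoImplicit false

namespace Pool.Agent.H33.AV3C

open Polynomial Matrix Pool.AV3

section Ring

variable {R : Type} [CommRing R]

/-- The final change of variables. -/
theorem nf_step (c : Fin 10 → R) (s l l' δ' : R) (h3 : c 3 = 0)
    (h6 : c 6 = 0) (h7 : c 7 * δ' = 1) (hl : 2 * c 7 * l + c 4 * s = 0)
    (hl' : 2 * c 7 * l' + c 8 = 0) :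
    tsub c !![s, 0, 0; l, 1, l'; 0, 0, 1] =
    (-(c 7)) • sg
      (-(δ' * (c 1 * s ^ 2)))
      (-(δ' * (c 0 * s ^ 3 + c 1 * s ^ 2 * l)))
      (-(δ' * (c 1 * s ^ 2 * l' + c 2 * s ^ 2 + c 4 * s * l + c 7 * l ^ 2)))
      (-(δ' * (c 4 * s * l' + c 5 * s + 2 * c 7 * l * l' + c 8 * l)))
      (-(δ' * (c 7 * l' ^ 2 + c 8 * l' + c 9))) := by
  funext i
  fin_cases i
  · simp [tsub, tev, tder, sg, h3, h6]
    linear_combination (-(c 0 * s ^ 3 + c 1 * s ^ 2 * l)) * h7
  · simp [tsub, tev, tder, sg, h3, h6]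
    linear_combination (-(c 1 * s ^ 2)) * h7
  · simp [tsub, tev, tder, sg, h3, h6]
    linear_combination (-(c 1 * s ^ 2 * l' + c 2 * s ^ 2 + c 4 * s * l + c 7 * l ^ 2)) * h7
  · simp [tsub, tev, tder, sg, h3, h6]
  · simp [tsub, tev, tder, sg, h3, h6]
    linear_combination hl
  · simp [tsub, tev, tder, sg, h3, h6]
    linear_combination (-(c 4 * s * l' + c 5 * s + 2 * c 7 * l * l' + c 8 * l)) * h7
  · simp [tsub, tev, tder, sg, h3, h6]
  · simp [tsub, tev, tder, sg, h3, h6]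
  · simp [tsub, tev, tder, sg, h3, h6]
    linear_combination hl'
  · simp [tsub, tev, tder, sg, h3, h6]
    linear_combination (-(c 7 * l' ^ 2 + c 8 * l' + c 9)) * h7

end Ring

/-- Normal forms over local rings. -/
theorem nf_local {R : Type} [CommRing R] [IsLocalRing R] (τ : R) (hτ : 2 * τ = 1)
    (c : Fin 10 → R) (v w₀ w₂ : Fin 3 → R) (hv : tev c v = 0) (h2 : IsUnit (tder c v w₂))
    (h0 : ¬ IsUnit (tder c v w₀)) (h0' : IsUnit (tev c w₀)) :
    ∃ (g : Matrix (Fin 3) (Fin 3) R) (A D E F G : R), g *ᵥ (e1 : Fin 3 → R) = v ∧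
      Eqv g c (sg A D E F G) ∧ (IsUnit A ∨ IsUnit D) := by
  obtain ⟨u2, hu2⟩ := h2
  -- the tangent vector
  set μ : R := -(tder c v w₀ * (u2⁻¹ : Rˣ)) with hμ
  have hμn : ¬ IsUnit μ := by
    intro h
    apply h0
    have h1 : tder c v w₀ = -(μ * u2) := by
      rw [hμ]
      have := u2.inv_mul
      linear_combination (-(tder c v w₀)) * this
    rw [h1]
    exact (h.mul u2.isUnit).neg
  set w : Fin 3 → R := w₀ + μ • w₂ with hw
  have hw3 : tder c v w = 0 := by
    rw [hw, tder_add_right, tder_smul_right, ← hu2, hμ]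
    have := u2.inv_mul
    linear_combination (-(tder c v w₀)) * this
  have hwu : IsUnit (tev c w) := by
    have h1 : tev c w = tev c w₀ + μ * (tder c w₀ w₂ + μ * tder c w₂ w₀ + μ ^ 2 * tev c w₂) := by
      have := taylor c 1 μ w₀ w₂
      rw [one_smul] at this
      rw [hw, this]
      ring
    rw [h1]
    by_contra hn
    have h3 : IsUnit ((tev c w₀ + μ * (tder c w₀ w₂ + μ * tder c w₂ w₀ + μ ^ 2 * tev c w₂)) +
        -(μ * (tder c w₀ w₂ + μ * tder c w₂ w₀ + μ ^ 2 * tev c w₂))) := by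
      rw [add_neg_cancel_right]
      exact h0'
    rcases IsLocalRing.isUnit_or_isUnit_of_isUnit_add h3 with h4 | h4
    · exact hn h4
    · exact hμn (isUnit_of_mul_isUnit_left ((IsUnit.neg_iff _).1 h4))
  -- the matrix
  set g₀ : Matrix (Fin 3) (Fin 3) R := !![w 0, v 0, w₂ 0; w 1, v 1, w₂ 1; w 2, v 2, w₂ 2] with hg₀
  have hg : ∀ x : Fin 3 → R, g₀ *ᵥ x = x 0 • w + x 1 • v + x 2 • w₂ := by
    intro x
    funext i
    rw [mulVec3]
    fin_cases i <;> simp [hg₀] <;> ring
  have hdet : IsUnit g₀.det := by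
    set φ := IsLocalRing.residue R with hφ
    have hφu : ∀ x : R, IsUnit x ↔ φ x ≠ 0 := by
      intro x
      rw [hφ, Ne, IsLocalRing.residue_eq_zero_iff, IsLocalRing.notMem_maximalIdeal]
    rw [hφu]
    intro hz
    have hmd : (g₀.map φ).det = 0 := by
      rw [← hz, RingHom.map_det]
      rfl
    obtain ⟨x, hx, hx0⟩ := Matrix.exists_mulVec_eq_zero_iff.2 hmd
    set c' : Fin 10 → IsLocalRing.ResidueField R := fun i => φ (c i) with hc'
    set w' : Fin 3 → IsLocalRing.ResidueField R := fun i => φ (w i) with hw'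
    set v' : Fin 3 → IsLocalRing.ResidueField R := fun i => φ (v i) with hv'
    set z' : Fin 3 → IsLocalRing.ResidueField R := fun i => φ (w₂ i) with hz'
    have hlin : x 0 • w' + x 1 • v' + x 2 • z' = 0 := by
      rw [← hx0]
      funext i
      rw [mulVec3]
      fin_cases i <;> simp [hg₀, hw', hv', hz'] <;> ring
    have e1 : tev c' v' = 0 := by
      rw [hc', hv', ← map_tev, hv, map_zero]
    have e2 : tder c' v' w' = 0 := by
      rw [hc', hv', hw', ← map_tder, hw3, map_zero]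
    have e3 : tder c' v' z' ≠ 0 := by
      rw [hc', hv', hz', ← map_tder, ← hu2]
      exact (hφu _).1 u2.isUnit
    have e4 : tev c' w' ≠ 0 := by
      rw [hc', hw', ← map_tev]
      exact (hφu _).1 hwu
    have h5 : tder c' v' (x 0 • w' + x 1 • v' + x 2 • z') = 0 := by
      rw [hlin]
      simp [tder]
    rw [tder_add_right, tder_add_right, tder_smul_right, tder_smul_right, tder_smul_right, e2,
      tder_self, e1, mul_zero, mul_zero, mul_zero, zero_add, zero_add] at h5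
    have hx2 : x 2 = 0 := (mul_eq_zero.1 h5).resolve_right e3
    rw [hx2, zero_smul, add_zero] at hlin
    have hx1 : x 0 = 0 := by
      have h6 : x 0 • w' = (-(x 1)) • v' := by
        rw [neg_smul]
        exact eq_neg_of_add_eq_zero_left hlin
      have h7 : tev c' (x 0 • w') = 0 := by
        rw [h6, tev_smul_vec, e1, mul_zero]
      rw [tev_smul_vec] at h7
      exact pow_eq_zero_iff (by norm_num) |>.1 ((mul_eq_zero.1 h7).resolve_right e4)
    rw [hx1, zero_smul, zero_add] at hlin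
    have hx3 : x 1 = 0 := by
      by_contra hne
      have h8 : v' = 0 := (smul_eq_zero.1 hlin).resolve_left hne
      apply e3
      rw [h8]
      simp [tder]
    apply hx
    funext i
    fin_cases i
    · exact hx1
    · exact hx3
    · exact hx2
  obtain ⟨d, hd⟩ := hdet
  have hcol0 : (fun i => g₀ i 0) = w := by
    funext i
    fin_cases i <;> rfl
  have hcol1 : (fun i => g₀ i 1) = v := by
    funext i
    fin_cases i <;> rfl
  have hcol2 : (fun i => g₀ i 2) = w₂ := by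
    funext i
    fin_cases i <;> rfl
  set c' := tsub c g₀ with hc'
  have k3 : c' 3 = 0 := by
    have : c' 3 = tder c (fun i => g₀ i 1) (fun i => g₀ i 0) := rfl
    rw [this, hcol0, hcol1, hw3]
  have k6 : c' 6 = 0 := by
    have : c' 6 = tev c (fun i => g₀ i 1) := rfl
    rw [this, hcol1, hv]
  have k7 : c' 7 = u2 := by
    have : c' 7 = tder c (fun i => g₀ i 1) (fun i => g₀ i 2) := rfl
    rw [this, hcol1, hcol2, hu2]
  have k0 : IsUnit (c' 0) := by
    have : c' 0 = tev c (fun i => g₀ i 0) := rfl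
    rw [this, hcol0]
    exact hwu
  set δ' : R := ((u2⁻¹ : Rˣ) : R) with hδ'
  have k7' : c' 7 * δ' = 1 := by
    rw [k7, hδ', u2.mul_inv]
  set s : R := -(c' 7) * ((d⁻¹ : Rˣ) : R) with hs
  set l : R := -(c' 4 * s * τ) * δ' with hl
  set l' : R := -(c' 8 * τ) * δ' with hl'
  have q1 : 2 * c' 7 * l + c' 4 * s = 0 := by
    rw [hl]
    linear_combination (-(c' 4 * s)) * hτ * (c' 7 * δ') - (c' 4 * s) * k7'
  have q2 : 2 * c' 7 * l' + c' 8 = 0 := by
    rw [hl']
    linear_combination (-(c' 8)) * hτ * (c' 7 * δ') - (c' 8) * k7'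
  have key := nf_step c' s l l' δ' k3 k6 k7' q1 q2
  have hdh : (!![s, 0, 0; l, 1, l'; 0, 0, 1] : Matrix (Fin 3) (Fin 3) R).det = s := by
    rw [Matrix.det_fin_three]
    simp
  have hdd : (g₀ * !![s, 0, 0; l, 1, l'; 0, 0, 1]).det = -(c' 7) := by
    rw [det_mul, hdh, ← hd, hs]
    have := d.mul_inv
    linear_combination (-(c' 7)) * this
  have hsu : IsUnit s := by
    rw [hs, k7]
    exact (u2.isUnit.neg).mul (d⁻¹).isUnit
  have hδu : IsUnit δ' := (u2⁻¹).isUnit
  have hE : Eqv (g₀ * !![s, 0, 0; l, 1, l'; 0, 0, 1]) c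
      (sg (-(δ' * (c' 1 * s ^ 2))) (-(δ' * (c' 0 * s ^ 3 + c' 1 * s ^ 2 * l)))
        (-(δ' * (c' 1 * s ^ 2 * l' + c' 2 * s ^ 2 + c' 4 * s * l + c' 7 * l ^ 2)))
        (-(δ' * (c' 4 * s * l' + c' 5 * s + 2 * c' 7 * l * l' + c' 8 * l)))
        (-(δ' * (c' 7 * l' ^ 2 + c' 8 * l' + c' 9)))) := by
    refine ⟨?_, ?_⟩
    · rw [hdd, k7]
      exact u2.isUnit.neg
    · rw [hdd, ← Pool.AV3.tsub_mul]
      exact key
  refine ⟨_, _, _, _, _, _, ?_, hE, ?_⟩
  · rw [← Matrix.mulVec_mulVec, hg]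
    have h9 : (!![s, 0, 0; l, 1, l'; 0, 0, 1] : Matrix (Fin 3) (Fin 3) R) *ᵥ e1 = e1 := by
      funext i
      rw [mulVec3]
      fin_cases i <;> simp [e1]
    rw [h9]
    funext i
    simp [e1]
  · by_cases h1 : IsUnit (c' 1)
    · left
      exact (hδu.mul (h1.mul (hsu.pow 2))).neg
    · right
      apply IsUnit.neg
      apply hδu.mul
      by_contra hn
      have h3 : IsUnit ((c' 0 * s ^ 3 + c' 1 * s ^ 2 * l) + -(c' 1 * s ^ 2 * l)) := by
        rw [add_neg_cancel_right]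
        exact k0.mul (hsu.pow 3)
      rcases IsLocalRing.isUnit_or_isUnit_of_isUnit_add h3 with h4 | h4
      · exact hn h4
      · exact h1 (isUnit_of_mul_isUnit_left (isUnit_of_mul_isUnit_left
          ((IsUnit.neg_iff _).1 h4)))

theorem nfl3_thm : NFL3Stmt := by
  intro L _ O π hL c v hc hG hv
  obtain ⟨hv0, -, -, ⟨w₂, hw₂, hd₂⟩, w₀, hw₀, hd₀, ht₀⟩ := hG
  set c' : Fin 10 → O := fun i => ⟨c i, hc i⟩ with hc'
  set v' : Fin 3 → O := fun i => ⟨v i, hv0 i⟩ with hv'
  set x₂ : Fin 3 → O := fun i => ⟨w₂ i, hw₂ i⟩ with hx₂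
  set x₀ : Fin 3 → O := fun i => ⟨w₀ i, hw₀ i⟩ with hx₀
  have hunit : ∀ x : O, IsUnit x ↔ (x : L) / π ∉ O := by
    intro x
    constructor
    · intro hx hm
      have hx0 : (x : L) ≠ 0 := by
        intro h
        exact hx.ne_zero (Subtype.ext h)
      have h1 := (hL.unif x x.2 hx0).2 hm
      apply h1
      obtain ⟨u, hu⟩ := hx
      have h2 : (x : L) * ((u⁻¹ : Oˣ) : O) = 1 := by
        rw [← hu]
        exact congrArg (Subtype.val) u.mul_inv
      rw [inv_eq_of_mul_eq_one_right h2]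
      exact (((u⁻¹ : Oˣ) : O)).2
    · intro hx
      have hx0 : (x : L) ≠ 0 := by
        intro h
        apply hx
        rw [h, zero_div]
        exact O.zero_mem
      have h1 : (x : L)⁻¹ ∈ O := by
        by_contra hn
        exact hx ((hL.unif x x.2 hx0).1 hn)
      refine IsUnit.of_mul_eq_one (⟨(x : L)⁻¹, h1⟩ : O) ?_
      apply Subtype.ext
      simp [hx0]
  have hev : ∀ x : Fin 3 → O, ((tev c' x : O) : L) = tev c (fun i => (x i : L)) := fun x =>
    map_tev O.subtype c' x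
  have hde : ∀ x y : Fin 3 → O, ((tder c' x y : O) : L) =
      tder c (fun i => (x i : L)) (fun i => (y i : L)) := fun x y => map_tder O.subtype c' x y
  have h2τ : (2 : O) * ⟨(2 : L)⁻¹, hL.two.2⟩ = 1 := by
    apply Subtype.ext
    exact mul_inv_cancel₀ hL.two.1
  obtain ⟨g, A, D, E, F, G, hg1, hg2, hg3⟩ := nf_local (R := O) ⟨(2 : L)⁻¹, hL.two.2⟩ h2τ c' v' x₀ x₂
    (Subtype.ext (by rw [hev]; exact hv)) ((hunit _).2 (by rw [hde]; exact hd₂))
    (fun h => (hunit _).1 h (by rw [hde]; exact hd₀)) ((hunit _).2 (by rw [hev]; exact ht₀))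
  have hUI : ∀ x : O, IsUnit x → AVS.UI (O : Set L) (x : L) := by
    intro x hx
    obtain ⟨u, rfl⟩ := hx
    have h1 : ((u : O) : L) * (((u⁻¹ : Oˣ) : O) : L) = 1 := congrArg (Subtype.val) u.mul_inv
    have h0 : ((u : O) : L) ≠ 0 := left_ne_zero_of_mul_eq_one h1
    refine ⟨h0, (u : O).2, ?_⟩
    rw [inv_eq_of_mul_eq_one_right h1]
    exact (((u⁻¹ : Oˣ) : O)).2
  have hE := Eqv.map O.subtype hg2
  have hsg : (fun i => O.subtype (sg A D E F G i)) = sg (A : L) (D : L) (E : L) (F : L) (G : L) := by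
    funext i
    fin_cases i <;> simp [sg]
  have hcc : (fun i => O.subtype (c' i)) = c := rfl
  rw [hsg, hcc] at hE
  refine ⟨g.map O.subtype, A, D, E, F, G, ⟨fun i j => (g i j).2, ?_⟩, ?_, A.2, D.2, E.2, F.2, G.2,
    hE, ?_⟩
  · have h1 : (g.map O.subtype).det = ((g.det : O) : L) := by
      have : g.map O.subtype = O.subtype.mapMatrix g := rfl
      rw [this, ← RingHom.map_det]
      rfl
    rw [h1]
    exact hUI _ hg2.1
  · funext i
    have h1 := congrFun hg1 i
    have h2 := congrArg (Subtype.val) h1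
    rw [mulVec3] at h2
    rw [mulVec3]
    have h3 : (e1 : Fin 3 → L) = fun i => ((e1 : Fin 3 → O) i : L) := by
      funext i
      fin_cases i <;> rfl
    rw [h3]
    exact h2
  · rcases hg3 with h | h
    · exact Or.inl (hUI _ h)
    · exact Or.inr (hUI _ h)

end Pool.Agent.H33.AV3C
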