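import Pool.Agent.H8.AV3.Stmts5
import Pool.Agent.H8.AV3.Base

/-!
# Three-descent, stage 3: uniqueness of the lattice in which a given point is good (UNE)
-/

set_option autoImplicit false

namespace Pool.Agent.H33.AV3C

open Polynomial Matrix Pool.AV3

theorem une_thm (hNFL : NFL3Stmt) (hUNI : UNI3Stmt) (hGIR : GIRStmt) (hDVP : DVPStmt) :
    UNEStmt := by
  intro L _ O π hL c g g' v v' r hk hk' hv hr hgv
  have hDv := hDVP.2.2 L O π hL
  obtain ⟨-, hmul, hinv, hvec, -, -⟩ := hGIR L (O : Set L) π hDv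
  obtain ⟨hd, hc, hG⟩ := hk
  obtain ⟨hd', hc', hG'⟩ := hk'
  -- exact zeros
  have hz : tev (fun i => tsub c g i / g.det) v = 0 := by
    have : (fun i => tsub c g i / g.det) = (g.det)⁻¹ • tsub c g := by
      funext i
      simp [div_eq_inv_mul]
    rw [this, tev_smul_form, tev_tsub, hv, mul_zero]
  have hz' : tev (fun i => tsub c g' i / g'.det) v' = 0 := by
    have : (fun i => tsub c g' i / g'.det) = (g'.det)⁻¹ • tsub c g' := by
      funext i
      simp [div_eq_inv_mul]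
    rw [this, tev_smul_form, tev_tsub, hgv, tev_smul_vec, hv, mul_zero, mul_zero]
  obtain ⟨k, A, D, E, F, G, hk, hkv, hA, hD, hE, hF, hG1, hkE, hkU⟩ :=
    hNFL L O π hL _ v hc hG hz
  obtain ⟨k', A', D', E', F', G', hk', hkv', hA', hD', hE', hF', hG1', hkE', hkU'⟩ :=
    hNFL L O π hL _ v' hc' hG' hz'
  have hgE : Eqv g c (fun i => tsub c g i / g.det) := by
    refine ⟨hd.isUnit, ?_⟩
    funext i
    simp [mul_div_cancel₀ _ hd]
  have hgE' : Eqv g' c (fun i => tsub c g' i / g'.det) := by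
    refine ⟨hd'.isUnit, ?_⟩
    funext i
    simp [mul_div_cancel₀ _ hd']
  have h1 := hgE.trans hkE
  have h1' := hgE'.trans hkE'
  have h2 := (h1.symm).trans h1'
  have hkd : k.det ≠ 0 := (hinv k hk).2
  have hkd' : k'.det ≠ 0 := (hinv k' hk').2
  have hku : k * k⁻¹ = 1 := Matrix.mul_nonsing_inv k hkd.isUnit
  have hku' : k' * k'⁻¹ = 1 := Matrix.mul_nonsing_inv k' hkd'.isUnit
  have hkl : k⁻¹ * k = 1 := Matrix.nonsing_inv_mul k hkd.isUnit
  have hgl : g⁻¹ * g = 1 := Matrix.nonsing_inv_mul g hd.isUnit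
  have hgu : g * g⁻¹ = 1 := Matrix.mul_nonsing_inv g hd.isUnit
  have hkl' : k'⁻¹ * k' = 1 := Matrix.nonsing_inv_mul k' hkd'.isUnit
  set h := (g * k)⁻¹ * (g' * k') with hh
  have hhe : h *ᵥ (e1 : Fin 3 → L) = r • (e1 : Fin 3 → L) := by
    have e2 : k⁻¹ *ᵥ v = e1 := by
      rw [← hkv, Matrix.mulVec_mulVec, hkl, Matrix.one_mulVec]
    rw [hh, ← Matrix.mulVec_mulVec, ← Matrix.mulVec_mulVec, hkv', hgv, Matrix.mul_inv_rev,
      Matrix.mulVec_smul, ← Matrix.mulVec_mulVec, Matrix.mulVec_mulVec v g⁻¹ g, hgl,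
      Matrix.one_mulVec, e2]
  obtain ⟨ρ, hρ, hρh⟩ := hUNI L O π hL A D E F G A' D' E' F' G' r h hA hD hE hF hG1 hA' hD' hE' hF'
    hG1' hkU hkU' h2 hhe
  have hgk : (g * k) * h = g' * k' := by
    rw [hh, ← mul_assoc, Matrix.mul_nonsing_inv _ h1.1, one_mul]
  set κ := k * (ρ • h) * k'⁻¹ with hκ
  have hκG : AVS.GI (O : Set L) κ := hmul _ _ (hmul _ _ hk hρh) (hinv k' hk').1
  have hκv : κ *ᵥ v' = (ρ * r) • v := by
    have e3 : k'⁻¹ *ᵥ v' = e1 := by
      rw [← hkv', Matrix.mulVec_mulVec, hkl', Matrix.one_mulVec]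
    rw [hκ, ← Matrix.mulVec_mulVec, e3, ← Matrix.mulVec_mulVec, Matrix.smul_mulVec, hhe,
      Matrix.mulVec_smul, Matrix.mulVec_smul, hkv, smul_smul]
  refine ⟨κ, ρ⁻¹, hκG, inv_ne_zero hρ, ?_, ρ * r, ?_, ?_⟩
  · rw [hκ, ← mul_assoc, ← mul_assoc, Matrix.mul_smul, Matrix.smul_mul, smul_smul,
      inv_mul_cancel₀ hρ, one_smul, hgk, mul_assoc, hku', mul_one]
  · -- unit
    have hv0 := hG.1
    have hv0' := hG'.1
    obtain ⟨i, hi⟩ := hG.2.1
    obtain ⟨j, hj⟩ : ∃ j, (κ *ᵥ v') j / π ∉ (O : Set L) := by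
      by_contra hcon
      push Not at hcon
      obtain ⟨j, hj⟩ := hG'.2.1
      apply hj
      have hκi := (hinv κ hκG)
      have h3 := (hvec κ⁻¹ (κ *ᵥ v') hκi.1.1 (hvec κ v' hκG.1 hv0').1).2 hcon j
      rw [Matrix.mulVec_mulVec, Matrix.nonsing_inv_mul κ hκi.2.isUnit, Matrix.one_mulVec] at h3
      exact h3
    have hun : ∀ x : L, x ∈ (O : Set L) → x / π ∉ (O : Set L) → x ≠ 0 ∧ x⁻¹ ∈ O := by
      intro x hx hx'
      have hx0 : x ≠ 0 := by
        intro h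
        apply hx'
        rw [h, zero_div]
        exact O.zero_mem
      refine ⟨hx0, ?_⟩
      by_contra hn
      exact hx' ((hL.unif x hx hx0).1 hn)
    have hvi := hun _ (hv0 i) hi
    have hκj := hun _ ((hvec κ v' hκG.1 hv0').1 j) hj
    have hi' : (κ *ᵥ v') i = ρ * r * v i := by
      rw [hκv]
      simp
    have hj' : (κ *ᵥ v') j = ρ * r * v j := by
      rw [hκv]
      simp
    have ht0 : ρ * r ≠ 0 := mul_ne_zero hρ hr
    refine ⟨ht0, ?_, ?_⟩
    · have : ρ * r = (κ *ᵥ v') i * (v i)⁻¹ := by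
        rw [hi', mul_assoc, mul_inv_cancel₀ hvi.1, mul_one]
      rw [this]
      exact O.mul_mem _ _ ((hvec κ v' hκG.1 hv0').1 i) hvi.2
    · have hvj : v j ≠ 0 := by
        intro h
        apply hκj.1
        rw [hj', h, mul_zero]
      have : (ρ * r)⁻¹ = v j * ((κ *ᵥ v') j)⁻¹ := by
        rw [hj']
        field_simp
      rw [this]
      exact O.mul_mem _ _ (hv0 j) hκj.2
  · intro i
    have : (κ *ᵥ v') i - ρ * r * v i = 0 := by
      rw [hκv]
      simp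
    rw [this, zero_div]
    exact O.zero_mem

end Pool.Agent.H33.AV3C
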